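import Pool.Agent.X227.SM.Defs

set_option autoImplicit false

/-! The Bose–Mesner algebra of every symmetric association scheme contains a spin model. -/

namespace Pool.Agent.Results.MP_a35cac_co.PottsInEveryScheme

open Pool.Agent.X227.SM Finset

/-- The Potts matrix. -/
noncomputable def potts (X : Type) [Fintype X] (t₀ t₁ : ℂ) : Matrix X X ℂ :=
  open Classical in Matrix.of fun x y => if x = y then t₀ else t₁

variable {X : Type} [Fintype X] {d : ℕ}

theorem sum_potts (f : X → ℂ) (v : ℂ) (T : Finset X) (h : ∀ x ∉ T, f x = v) :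
    ∑ x, f x = ∑ x ∈ T, f x + ((Fintype.card X : ℂ) - T.card) * v := by
  classical
  rw [← Finset.sum_add_sum_compl T f]
  congr 1
  rw [Finset.sum_congr rfl (fun x hx => h x (by simpa using hx)), Finset.sum_const,
    Finset.card_compl, nsmul_eq_mul, Nat.cast_sub (Finset.card_le_univ T)]

theorem exists_potts (n : ℕ) : ∃ t₀ t₁ D : ℂ, t₀ ≠ 0 ∧ t₁ ≠ 0 ∧ D ^ 2 = n ∧
    t₀ / t₁ + t₁ / t₀ + (n - 2) = 0 ∧ t₀ + (n - 1) * t₁ = D / t₀ := by
  -- a root of `r ^ 2 + (n - 2) r + 1`
  obtain ⟨r, hr⟩ : ∃ r : ℂ, r ^ 2 + (n - 2) * r + 1 = 0 := by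
    obtain ⟨s, hs⟩ := IsAlgClosed.exists_pow_nat_eq (((n : ℂ) - 2) ^ 2 - 4) (n := 2) (by norm_num)
    refine ⟨(-((n : ℂ) - 2) + s) / 2, ?_⟩
    have : s ^ 2 = ((n : ℂ) - 2) ^ 2 - 4 := hs
    linear_combination (1 / 4 : ℂ) * this
  have hr0 : r ≠ 0 := by
    rintro rfl
    simp at hr
  obtain ⟨t, ht⟩ := IsAlgClosed.exists_pow_nat_eq (-1 / r) (n := 4) (by norm_num)
  have ht' : t ^ 4 * r = -1 := by rw [ht]; field_simp
  have ht0 : t ≠ 0 := by
    rintro rfl
    simp at ht'
  refine ⟨r * t, t, t ^ 2 * (r - 1), mul_ne_zero hr0 ht0, ht0, ?_, ?_, ?_⟩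
  · have h1 : (r - 1) ^ 2 = -n * r := by linear_combination hr
    have h2 : (t ^ 2 * (r - 1)) ^ 2 = t ^ 4 * (r - 1) ^ 2 := by ring
    rw [h2, h1]
    linear_combination (-(n : ℂ)) * ht'
  · have e1 : r * t / t = r := by field_simp
    have e2 : t / (r * t) = 1 / r := by field_simp
    rw [e1, e2]
    field_simp
    linear_combination hr
  · rw [eq_div_iff (mul_ne_zero hr0 ht0)]
    linear_combination t ^ 2 * hr

theorem isSpinModel_potts [Nonempty X] : ∃ t₀ t₁ : ℂ, IsSpinModel (potts X t₀ t₁) := by
  classical
  obtain ⟨t₀, t₁, D, h0, h1, hD, h2, h3⟩ :=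
    exists_potts (Fintype.card X)
  have hW : ∀ x y, potts X t₀ t₁ x y = if x = y then t₀ else t₁ := by
    intro x y
    simp only [potts, Matrix.of_apply]
  -- the equations
  have h2' : t₀ ^ 2 + t₁ ^ 2 + ((Fintype.card X : ℂ) - 2) * (t₀ * t₁) = 0 := by
    have := h2
    field_simp at this
    linear_combination this
  have h3' : t₀ * (t₀ + ((Fintype.card X : ℂ) - 1) * t₁) = D := by
    rw [h3]
    field_simp
  refine ⟨t₀, t₁, ?_, ?_, ?_, ?_, D, hD, ?_⟩
  · intro a b
    rw [hW, hW]
    by_cases h : a = b
    · simp [h]
    · rw [if_neg h, if_neg (Ne.symm h)]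
  · intro a b
    rw [hW]
    split_ifs
    · exact h0
    · exact h1
  · intro a
    have : ∀ x, potts X t₀ t₁ a x / potts X t₀ t₁ a x = 1 := by
      intro x
      rw [hW]
      split_ifs
      · exact div_self h0
      · exact div_self h1
    simp [this]
  · intro a b hab
    rw [sum_potts _ 1 {a, b} ?_]
    · rw [Finset.sum_pair hab, Finset.card_pair hab, hW, hW, hW, hW]
      simp only [if_true, if_neg hab, if_neg (Ne.symm hab)]
      push_cast
      linear_combination h2
    · intro x hx
      simp only [Finset.mem_insert, Finset.mem_singleton, not_or] at hx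
      rw [hW, hW, if_neg (Ne.symm hx.1), if_neg (Ne.symm hx.2), div_self h1]
  · intro a b c
    have ht : t₁ * t₁ / t₁ = t₁ := by field_simp
    by_cases hab : a = b
    · subst hab
      by_cases hac : a = c
      · subst hac
        rw [sum_potts _ t₁ {a} ?_]
        · simp only [Finset.sum_singleton, Finset.card_singleton, hW, if_true]
          push_cast
          field_simp
          linear_combination h3'
        · intro x hx
          simp only [Finset.mem_singleton] at hx
          rw [hW, if_neg (Ne.symm hx)]
          field_simp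
      · rw [sum_potts _ t₁ {a, c} ?_]
        · rw [Finset.sum_pair hac, Finset.card_pair hac]
          simp only [hW, if_true, if_neg hac, if_neg (Ne.symm hac)]
          push_cast
          field_simp
          rw [← h3']
          linear_combination (t₁ ^ 2 - t₀ ^ 2) * h2'
        · intro x hx
          simp only [Finset.mem_insert, Finset.mem_singleton, not_or] at hx
          rw [hW, hW, if_neg (Ne.symm hx.1), if_neg (Ne.symm hx.2)]
          field_simp
    · by_cases hac : a = c
      · subst hac
        have hba := Ne.symm hab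
        rw [sum_potts _ t₁ {a, b} ?_]
        · rw [Finset.sum_pair hab, Finset.card_pair hab]
          simp only [hW, if_true, if_neg hab, if_neg hba]
          push_cast
          field_simp
          linear_combination h3'
        · intro x hx
          simp only [Finset.mem_insert, Finset.mem_singleton, not_or] at hx
          rw [hW, hW, if_neg (Ne.symm hx.1), if_neg (Ne.symm hx.2)]
          field_simp
      · by_cases hbc : b = c
        · subst hbc
          have hba := Ne.symm hab
          rw [sum_potts _ t₁ {a, b} ?_]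
          · rw [Finset.sum_pair hab, Finset.card_pair hab]
            simp only [hW, if_true, if_neg hab, if_neg hba]
            push_cast
            field_simp
            linear_combination h3'
          · intro x hx
            simp only [Finset.mem_insert, Finset.mem_singleton, not_or] at hx
            rw [hW, hW, if_neg (Ne.symm hx.1), if_neg (Ne.symm hx.2)]
            field_simp
        · have hca := Ne.symm hac
          have hcb := Ne.symm hbc
          have hba := Ne.symm hab
          rw [sum_potts _ t₁ {a, b, c} ?_]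
          · rw [Finset.sum_insert (by simp [hab, hac]), Finset.sum_pair hbc,
              Finset.card_insert_of_notMem (by simp [hab, hac]), Finset.card_pair hbc]
            simp only [hW, if_true, if_neg hab, if_neg hba, if_neg hac, if_neg hca, if_neg hbc,
              if_neg hcb]
            push_cast
            field_simp
            rw [← h3']
            linear_combination (t₁ - t₀) * h2'
          · intro x hx
            simp only [Finset.mem_insert, Finset.mem_singleton, not_or] at hx
            rw [hW, hW, hW, if_neg (Ne.symm hx.1), if_neg (Ne.symm hx.2.1), if_neg (Ne.symm hx.2.2)]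
            field_simp

theorem potts_mem_BM (S : Scheme X d) (t₀ t₁ : ℂ) : potts X t₀ t₁ ∈ S.BM := by
  classical
  have h : potts X t₀ t₁ = t₀ • S.A 0 + ∑ i ∈ Finset.univ.erase 0, t₁ • S.A i := by
    ext x y
    simp only [potts, Matrix.of_apply, Matrix.add_apply, Matrix.smul_apply, Matrix.sum_apply,
      Scheme.A, smul_eq_mul]
    by_cases hxy : x = y
    · have h0 : S.r x y = 0 := (S.diag x y).2 hxy
      rw [if_pos hxy, h0]
      rw [Finset.sum_eq_zero]
      · simp
      · intro i hi
        have : (0 : Fin (d + 1)) ≠ i := fun h => (Finset.mem_erase.1 hi).1 h.symm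
        simp [this]
    · have h0 : S.r x y ≠ 0 := fun h => hxy ((S.diag x y).1 h)
      rw [if_neg hxy, if_neg h0, Finset.sum_eq_single (S.r x y)]
      · simp
      · intro i _ hi
        simp [Ne.symm hi]
      · intro h
        exact absurd (Finset.mem_erase.2 ⟨h0, Finset.mem_univ _⟩) h
  rw [h]
  refine Submodule.add_mem _ (Submodule.smul_mem _ _ (Submodule.subset_span ⟨0, rfl⟩)) ?_
  exact Submodule.sum_mem _ fun i _ => Submodule.smul_mem _ _ (Submodule.subset_span ⟨i, rfl⟩)

/-- The Bose–Mesner algebra of every symmetric association scheme contains a spin model. -/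
theorem result (X : Type) [Fintype X] (d : ℕ) (S : Scheme X d) : ∃ W ∈ S.BM, IsSpinModel W := by
  have := S.nonempty
  obtain ⟨t₀, t₁, h⟩ := isSpinModel_potts (X := X)
  exact ⟨_, potts_mem_BM S t₀ t₁, h⟩

end Pool.Agent.Results.MP_a35cac_co.PottsInEveryScheme
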